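import Pool.Agent.Results.MP_9d9c13_pr.WishartSumProduct

/-!
The product inequality for one Wishart matrix (the question as posed), derived from the hand-in
`WishartSumProduct` by taking `K = 1`, `J = 0`, `B = 0`.
-/

open MeasureTheory ProbabilityTheory Pool.Agent.Lib.MP_9d9c13_pr

namespace Pool.Agent.Lib.MP_9d9c13_pr.Variants

theorem wishartProduct (d : ℕ) (hd : 1 ≤ d) (p : Fin d → ℕ) (hp : ∀ i, 1 ≤ p i) (α : ℝ)
    (hα : ((∑ i, p i : ℕ) : ℝ) - 1 < α)
    (S : Matrix (Fin (∑ i, p i)) (Fin (∑ i, p i)) ℝ) (hS : S.PosDef)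
    (ν : Fin d → ℝ) (hν : ∀ i, 0 ≤ ν i) :
    ∏ i, ∫ x, (diagBlock p (symMat x) i).det ^ ν i ∂wishart α S
      ≤ ∫ x, ∏ i, (diagBlock p (symMat x) i).det ^ ν i ∂wishart α S := by
  have h := Pool.Agent.Results.MP_9d9c13_pr.WishartSumProduct.result d hd p hp 0 .zero 1
    (fun _ => α) (fun _ => hα) (fun _ => S) (fun _ => hS) 0 Fin.elim0 (fun j => j.elim0) ν hν
  have := isProbabilityMeasure_wishart hα hS
  simp only [Finset.univ_unique, Finset.sum_singleton, Finset.univ_eq_empty, Finset.sum_empty,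
    zero_add, add_zero] at h
  have hmp := measurePreserving_piUnique (fun _ : Fin 1 => wishart α S)
  have key : ∀ f : (Sym2 (Fin (∑ i, p i)) → ℝ) → ℝ,
      ∫ ω, f (ω.1 default) ∂(Measure.pi fun _ : Fin 1 => wishart α S).prod
        (Measure.pi fun j : Fin 0 => multivariateGaussian 0
          (Fin.elim0 j : Matrix (Fin (∑ i, p i)) (Fin (∑ i, p i)) ℝ))
        = ∫ x, f x ∂wishart α S := by
    intro f
    rw [integral_fun_fst (fun x : Fin 1 → Sym2 (Fin (∑ i, p i)) → ℝ => f (x default))]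
    simpa using hmp.integral_comp' f
  rw [key fun x => ∏ i, (diagBlock p (symMat x) i).det ^ ν i] at h
  exact (Finset.prod_congr rfl fun i _ =>
    (key fun x => (diagBlock p (symMat x) i).det ^ ν i).symm).trans_le h

end Pool.Agent.Lib.MP_9d9c13_pr.Variants
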